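import Pool.Agent.Work.MP_db9399_bg.Base

/-! THEOREM BIG, block PAT: the two patterns. -/

set_option autoImplicit false

namespace Pool.Agent.Work.MP_db9399_bg.helper43

open Finset Classical

/-- walks of length exactly `n` -/
def WK {β : Type} (R : β → β → Prop) (n : ℕ) (b b' : β) : Prop :=
  ∃ f : ℕ → β, f 0 = b ∧ f n = b' ∧ ∀ i < n, R (f i) (f (i + 1))

theorem WK.refl {β : Type} (R : β → β → Prop) (b : β) : WK R 0 b b :=
  ⟨fun _ => b, rfl, rfl, fun i hi => absurd hi (Nat.not_lt_zero i)⟩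

theorem WK.cons {β : Type} {R : β → β → Prop} {n : ℕ} {b b' b'' : β} (h : R b b')
    (hw : WK R n b' b'') : WK R (n + 1) b b'' := by
  obtain ⟨f, h0, h1, h2⟩ := hw
  refine ⟨fun i => if i = 0 then b else f (i - 1), if_pos rfl, ?_, ?_⟩
  · dsimp only
    rw [if_neg (by omega), Nat.add_sub_cancel]
    exact h1
  · intro i hi
    rcases Nat.eq_zero_or_pos i with h3 | h3
    · subst h3
      dsimp only
      rw [if_pos rfl, if_neg (by omega)]
      rw [show 0 + 1 - 1 = 0 from rfl, h0]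
      exact h
    · dsimp only
      rw [if_neg (by omega), if_neg (by omega), Nat.add_sub_cancel]
      have h4 := h2 (i - 1) (by omega)
      rwa [show i - 1 + 1 = i from by omega] at h4

theorem WK.trans {β : Type} {R : β → β → Prop} : ∀ {n k : ℕ} {b b' b'' : β}, WK R n b b' →
    WK R k b' b'' → WK R (n + k) b b''
  | 0, k, b, b', b'', h1, h2 => by
    obtain ⟨f, h3, h4, _⟩ := h1
    rw [h3] at h4
    subst h4
    rwa [Nat.zero_add]
  | n + 1, k, b, b', b'', h1, h2 => by
    obtain ⟨f, h3, h4, h5⟩ := h1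
    have h6 : WK R n (f 1) b' := by
      refine ⟨fun i => f (i + 1), rfl, h4, fun i hi => h5 (i + 1) (by omega)⟩
    have h7 := WK.trans h6 h2
    have h8 : R b (f 1) := by
      have := h5 0 (by omega)
      rwa [h3] at this
    have h9 := WK.cons h8 h7
    rwa [show n + k + 1 = n + 1 + k from by omega] at h9

theorem WK.pad {β : Type} {R : β → β → Prop} (hs : ∀ b b', R b b' → R b' b)
    (hex : ∀ b, ∃ b', R b b') {n : ℕ} {b b' : β} (h : WK R n b b') : ∀ k, WK R (n + 2 * k) b b'
  | 0 => h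
  | k + 1 => by
    obtain ⟨c, hc⟩ := hex b'
    have h1 : WK R 2 b' b' := WK.cons hc (WK.cons (hs _ _ hc) (WK.refl R b'))
    have h2 := WK.trans (WK.pad hs hex h k) h1
    rwa [show n + 2 * k + 2 = n + 2 * (k + 1) from by omega] at h2

/-! ### The path with loops -/

/-- the vertex number `k` of the path -/
def pos (l k : ℕ) : ZMod (2 * l + 1) :=
  if k % 2 = 0 then -((k / 2 : ℕ) : ZMod (2 * l + 1)) else (((k + 1) / 2 : ℕ) : ZMod (2 * l + 1))

theorem pos_step (l k : ℕ) : rs (pos l k) (pos l (k + 1)) := by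
  unfold pos rs
  rcases Nat.mod_two_eq_zero_or_one k with h | h
  · rw [if_pos h, if_neg (by omega)]
    right
    rw [show (k + 1 + 1) / 2 = k / 2 + 1 from by omega]
    push_cast
    ring
  · rw [if_neg (by omega), if_pos (by omega)]
    left
    ring

theorem pos_zero (l : ℕ) : pos l 0 = 0 := by
  simp [pos]

theorem pos_surj (l : ℕ) (b : ZMod (2 * l + 1)) : ∃ k ≤ 2 * l, pos l k = b := by
  have hb : ((b.val : ℕ) : ZMod (2 * l + 1)) = b := ZMod.natCast_zmod_val b
  have hlt : b.val < 2 * l + 1 := ZMod.val_lt b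
  by_cases h0 : b.val ≤ l
  · rcases Nat.eq_zero_or_pos b.val with h1 | h1
    · refine ⟨0, by omega, ?_⟩
      rw [pos_zero, ← hb, h1]
      simp
    · refine ⟨2 * b.val - 1, by omega, ?_⟩
      unfold pos
      rw [if_neg (by omega), show (2 * b.val - 1 + 1) / 2 = b.val from by omega]
      exact hb
  · refine ⟨2 * (2 * l + 1 - b.val), by omega, ?_⟩
    unfold pos
    rw [if_pos (by omega), show 2 * (2 * l + 1 - b.val) / 2 = 2 * l + 1 - b.val from by omega]
    rw [Nat.cast_sub (by omega), ZMod.natCast_self, hb]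
    ring

theorem WK_up (l i : ℕ) : ∀ n, WK (eR l) n (pos l i) (pos l (i + n))
  | 0 => WK.refl _ _
  | n + 1 => by
    have h1 := WK_up l i n
    have h2 : WK (eR l) 1 (pos l (i + n)) (pos l (i + n + 1)) :=
      WK.cons (pos_step l (i + n)) (WK.refl _ _)
    exact WK.trans h1 h2

theorem WK_down (l i : ℕ) : ∀ n, WK (eR l) n (pos l (i + n)) (pos l i)
  | 0 => WK.refl _ _
  | n + 1 => WK.cons (rs_symm (pos_step l (i + n))) (WK_down l i n)

theorem WK_eR (l : ℕ) (b b' : ZMod (2 * l + 1)) : WK (eR l) (2 * (2 * l + 1)) b b' := by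
  have hs : ∀ b b' : ZMod (2 * l + 1), eR l b b' → eR l b' b := fun b b' h => rs_symm h
  have hex : ∀ b : ZMod (2 * l + 1), ∃ b', eR l b b' := fun b => ⟨-b, Or.inl (by ring)⟩
  obtain ⟨i, hi, rfl⟩ := pos_surj l b
  obtain ⟨j, hj, rfl⟩ := pos_surj l b'
  rcases Nat.mod_two_eq_zero_or_one (i + j) with h | h
  · rcases le_total i j with hij | hij
    · have h1 := WK_up l i (j - i)
      rw [show i + (j - i) = j from by omega] at h1
      have h2 := WK.pad hs hex h1 ((2 * (2 * l + 1) - (j - i)) / 2)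
      rwa [show j - i + 2 * ((2 * (2 * l + 1) - (j - i)) / 2) = 2 * (2 * l + 1) from by omega]
        at h2
    · have h1 := WK_down l j (i - j)
      rw [show j + (i - j) = i from by omega] at h1
      have h2 := WK.pad hs hex h1 ((2 * (2 * l + 1) - (i - j)) / 2)
      rwa [show i - j + 2 * ((2 * (2 * l + 1) - (i - j)) / 2) = 2 * (2 * l + 1) from by omega]
        at h2
  · have h1 := WK_down l 0 i
    rw [Nat.zero_add] at h1
    have h2 : WK (eR l) 1 (pos l 0) (pos l 0) :=
      WK.cons (by rw [pos_zero]; exact Or.inl (by ring)) (WK.refl _ _)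
    have h3 := WK_up l 0 j
    rw [Nat.zero_add] at h3
    have h4 := WK.pad hs hex (WK.trans (WK.trans h1 h2) h3) ((2 * (2 * l + 1) - (i + 1 + j)) / 2)
    rwa [show i + 1 + j + 2 * ((2 * (2 * l + 1) - (i + 1 + j)) / 2) = 2 * (2 * l + 1)
      from by omega] at h4

theorem WK_ne (b b' : Fin 3) (k : ℕ) : WK (fun x y : Fin 3 => x ≠ y) (2 + 2 * k) b b' := by
  have hex : ∀ b : Fin 3, ∃ b', b ≠ b' := by decide
  have h2 : ∀ b b' : Fin 3, ∃ c, b ≠ c ∧ c ≠ b' := by decide
  obtain ⟨c, hc1, hc2⟩ := h2 b b'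
  exact WK.pad (fun b b' h => h.symm) hex (WK.cons hc1 (WK.cons hc2 (WK.refl _ _))) k

theorem card_rs {l : ℕ} (hl : 1 ≤ l) (b : ZMod (2 * l + 1)) :
    (univ.filter (fun b' => rs b b')).card = 2 := by
  have h1 : (univ.filter (fun b' => rs b b')) = {-b, 1 - b} := by
    ext x
    rw [mem_filter, mem_insert, mem_singleton]
    unfold rs
    constructor
    · rintro ⟨-, h | h⟩
      · left
        linear_combination h
      · right
        linear_combination h
    · rintro (h | h)
      · exact ⟨mem_univ _, Or.inl (by rw [h]; ring)⟩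
      · exact ⟨mem_univ _, Or.inr (by rw [h]; ring)⟩
  rw [h1, card_pair]
  intro h
  have h2 : ((0 : ℕ) : ZMod (2 * l + 1)) = ((1 : ℕ) : ZMod (2 * l + 1)) := by
    push_cast
    linear_combination h
  have := natCast_inj (by omega) (by omega) h2
  omega

theorem pat_e (l m r K K1 : ℕ) (hl : 1 ≤ l) :
    IsPat (eP l m r K K1) (eR l) 2 (2 * l + 1) (1 / (2 * l + 1)) where
  p0 := by positivity
  p1 := by
    have : (0 : ℝ) ≤ l := Nat.cast_nonneg _
    rw [div_le_one (by positivity)]
    linarith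
  ne b := ⟨(0, b, 0, 0, 0, 0), by unfold eP; rw [mem_bx]; simp⟩
  dn b := by
    unfold eP
    rw [den_bx, card_univ_zmod, card_univ_fin, card_univ_fin, card_univ_fin, card_singleton]
    have h1 : (2 * (m : ℝ) + 1) ≠ 0 := by positivity
    have h2 : (2 * (l : ℝ) + 1) ≠ 0 := by positivity
    have h3 : ((r : ℝ) + 1) ≠ 0 := by positivity
    have h4 : ((K : ℝ) + 1) ≠ 0 := by positivity
    have h5 : ((K1 : ℝ) + 1) ≠ 0 := by positivity
    push_cast
    field_simp
  dis b b' hne := by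
    rw [Finset.disjoint_left]
    intro t h1 h2
    unfold eP at h1 h2
    rw [mem_bx] at h1 h2
    rw [mem_singleton] at h1 h2
    exact hne (h1.2.1.symm.trans h2.2.1)
  sym b b' h := rs_symm h
  n0 := by norm_num
  reg b := card_rs hl b
  ew b b' := WK_eR l b b'

theorem pat_r (l m r K K1 : ℕ) (hl : 1 ≤ l) (a : ZMod (2 * m + 1)) (h : Fin m) :
    IsPat (rP l r K K1 a h) (rR l) 4 (2 * l + 1) (1 / ((2 * m + 1) * (2 * l + 1))) where
  p0 := by positivity
  p1 := by
    have h1 : (0 : ℝ) ≤ l := Nat.cast_nonneg _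
    have h2 : (0 : ℝ) ≤ m := Nat.cast_nonneg _
    rw [div_le_one (by positivity)]
    nlinarith [mul_nonneg h1 h2]
  ne b := ⟨(c3f a h b.1, b.2, 0, 0, 0, 0), by unfold rP; rw [mem_bx]; simp⟩
  dn b := by
    unfold rP
    rw [den_bx, card_univ_zmod, card_univ_fin, card_univ_fin, card_univ_fin, card_singleton,
      card_singleton]
    have h1 : (2 * (m : ℝ) + 1) ≠ 0 := by positivity
    have h2 : (2 * (l : ℝ) + 1) ≠ 0 := by positivity
    have h3 : ((r : ℝ) + 1) ≠ 0 := by positivity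
    have h4 : ((K : ℝ) + 1) ≠ 0 := by positivity
    have h5 : ((K1 : ℝ) + 1) ≠ 0 := by positivity
    push_cast
    field_simp
  dis b b' hne := by
    rw [Finset.disjoint_left]
    intro t h1 h2
    unfold rP at h1 h2
    rw [mem_bx] at h1 h2
    rw [mem_singleton, mem_singleton] at h1 h2
    apply hne
    have e1 : b.1 = b'.1 := c3f_inj a h (h1.1.symm.trans h2.1)
    have e2 : b.2 = b'.2 := h1.2.1.symm.trans h2.2.1
    exact Prod.ext e1 e2
  sym b b' h := ⟨h.1.symm, rs_symm h.2⟩
  n0 := by norm_num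
  reg b := by
    have h1 : (univ.filter (fun b' : Fin 3 × ZMod (2 * l + 1) => rR l b b')) =
        (univ.filter (fun x : Fin 3 => b.1 ≠ x)) ×ˢ (univ.filter (fun y => rs b.2 y)) := by
      ext x
      rw [mem_product, mem_filter, mem_filter, mem_filter]
      unfold rR
      simp
    rw [h1, card_product, card_rs hl b.2]
    have h2 : ∀ x : Fin 3, (univ.filter (fun y : Fin 3 => x ≠ y)).card = 2 := by decide
    have h3 : (univ.filter (fun x : Fin 3 => b.1 ≠ x)).card = 2 := h2 b.1
    rw [h3]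
  ew b b' := by
    obtain ⟨f, f0, f1, f2⟩ := WK_eR l b.2 b'.2
    have hw := WK_ne b.1 b'.1 (2 * l)
    rw [show 2 + 2 * (2 * l) = 2 * (2 * l + 1) from by ring] at hw
    obtain ⟨f', g0, g1, g2⟩ := hw
    refine ⟨fun i => (f' i, f i), Prod.ext g0 f0, Prod.ext g1 f1, fun i hi => ⟨g2 i hi, f2 i hi⟩⟩

theorem stmt_PAT : Stmt_PAT := fun l m r K K1 hl _ =>
  ⟨fun a h => pat_r l m r K K1 hl a h, pat_e l m r K K1 hl⟩

end Pool.Agent.Work.MP_db9399_bg.helper43
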